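import Pool.Agent.Lib.MP_85f9db_co.H7.Main
import Pool.Agent.Lib.MP_85f9db_co.H7.Path

set_option autoImplicit false

/-! # The shape of a graph that violates the conjecture

`G` is a finite graph on `n` vertices with `d(u) + d(v) ≥ n` for all non-adjacent `u ≠ v`, and
either every vertex has at most `K` non-neighbours with exactly two common neighbours, or `n` is
odd and all degrees are at least `n / 2`. Put `T = 10 ^ 6 + 26 K ^ 2`. If two colours do not
suffice to make `G` rainbow connected, then

(a) the non-adjacent pairs with at most `T` common neighbours do not form a bipartite graph;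

(b) for every vertex `z` and every `s`, at most `2 (4 s + 1) T` non-neighbours of `z` have at most
`s` common neighbours with `z`;

(c) if all degrees are at least `n / 2`, every vertex cut has more than `n / (18 T + 2)`
vertices. -/

namespace Pool.Agent.Results.MP_85f9db_co.CounterexampleShape

open Finset

section

variable {V : Type} [Fintype V] (G : SimpleGraph V) [DecidableRel G.Adj]

/-- The number of common neighbours. -/
def codeg (u v : V) : ℕ := #{w : V | G.Adj u w ∧ G.Adj v w}

/-- Some colouring of the edges with two colours joins every two distinct vertices by a path whose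
edges have distinct colours. -/
def TwoColours : Prop :=
  ∃ c : Sym2 V → Fin 2, ∀ u v : V, u ≠ v → ∃ p : G.Walk u v, p.IsPath ∧ (p.edges.map c).Nodup

/-- Every two distinct non-adjacent vertices have degree sum at least the number of vertices. -/
def OreCondition : Prop :=
  ∀ u v : V, u ≠ v → ¬ G.Adj u v → Fintype.card V ≤ G.degree u + G.degree v

/-- Every degree is at least half the number of vertices. -/
def HalfDegree : Prop := ∀ v : V, Fintype.card V ≤ 2 * G.degree v

/-- The non-neighbours of `z` with at most `s` common neighbours with `z`. -/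
def light [DecidableEq V] (z : V) (s : ℕ) : Finset V :=
  {y : V | y ≠ z ∧ ¬ G.Adj z y ∧ codeg G z y ≤ s}

/-- Every vertex has at most `K` non-neighbours with exactly two common neighbours. -/
def FewThin [DecidableEq V] (K : ℕ) : Prop :=
  ∀ z : V, #{y : V | y ≠ z ∧ ¬ G.Adj z y ∧ codeg G z y = 2} ≤ K

end

theorem result (V : Type) [Fintype V] [DecidableEq V] (G : SimpleGraph V) [DecidableRel G.Adj]
    (hore : OreCondition G) (K : ℕ)
    (hK : FewThin G K ∨ (Odd (Fintype.card V) ∧ HalfDegree G))
    (T : ℕ) (hT : T = 10 ^ 6 + 26 * K ^ 2) (hG : ¬ TwoColours G) :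
    -- (a)
    (¬ ∃ b : V → Bool, ∀ u v : V, u ≠ v → ¬ G.Adj u v → codeg G u v ≤ T → b u ≠ b v) ∧
    -- (b)
    (∀ (z : V) (s : ℕ), #(light G z s) ≤ 2 * (4 * s + 1) * T) ∧
    -- (c)
    (HalfDegree G → ∀ A B : Finset V, A.Nonempty → B.Nonempty →
      (∀ a ∈ A, ∀ b ∈ B, a ≠ b ∧ ¬ G.Adj a b) →
        Fintype.card V < (18 * T + 2) * (Fintype.card V - #(A ∪ B))) := by
  have hthin : ∀ z, ((univ.filter (fun y => z ≠ y ∧ ¬ G.Adj z y)).filter
      (fun y => (Lib.MP_85f9db_co.H67.com G z y).card = 2)).card ≤ K := by
    rcases hK with h | h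
    · intro z
      refine le_trans (Finset.card_le_card ?_) (h z)
      intro y hy
      simp only [mem_filter, mem_univ, true_and] at hy ⊢
      exact ⟨hy.1.1.symm, hy.1.2, hy.2⟩
    · exact Lib.MP_85f9db_co.H7.no_thin G h.1 h.2 K
  have hT' : T = 1000000 + 26 * K ^ 2 := by rw [hT]; norm_num
  refine ⟨?_, ?_, ?_⟩
  · rintro ⟨b, hb⟩
    refine hG (Lib.MP_85f9db_co.H7.exists_path G (Lib.MP_85f9db_co.H7.thin G hore K hthin ?_))
    refine ⟨SimpleGraph.Coloring.mk (fun v => if b v = true then 1 else 0) ?_⟩
    intro u v h
    have h3 := hb u v h.1 h.2.1 (by rw [hT']; exact h.2.2)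
    revert h3
    cases b u <;> cases b v <;> simp
  · intro z s
    by_contra hcon
    push Not at hcon
    refine hG (Lib.MP_85f9db_co.H7.exists_path G
      (Lib.MP_85f9db_co.H7.crowded G hore K hthin z s ?_))
    have h4 : #(light G z s) ≤ (Lib.MP_85f9db_co.H7.near G z s).card := by
      apply Finset.card_le_card
      intro y hy
      simp only [light, mem_filter, mem_univ, true_and, Lib.MP_85f9db_co.H7.near] at hy ⊢
      exact ⟨⟨hy.1.symm, hy.2.1⟩, hy.2.2⟩
    rw [← hT']
    refine lt_of_eq_of_lt ?_ (hcon.trans_le h4)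
    ring
  · intro hδ A B hA hB hAB
    by_contra hcon
    push Not at hcon
    exact hG (Lib.MP_85f9db_co.H7.exists_path G
      (Lib.MP_85f9db_co.H7.small_cut G hδ K T hT' hthin A B hA hB hAB hcon))

end Pool.Agent.Results.MP_85f9db_co.CounterexampleShape
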