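import Pool.Agent.Lib.MP_85f9db_co.H67.Main

set_option autoImplicit false

/-! # Rainbow connection number two under a degree-sum condition with an additive constant

If `d(u) + d(v) ≥ n + 14` for all non-adjacent `u ≠ v` (in particular if `δ(G) ≥ n/2 + 7`),
then two colours suffice to make `G` rainbow connected. -/

namespace Pool.Agent.Results.MP_85f9db_co.DegreeSumFourteen

open Pool.Agent.Lib.MP_85f9db_co.H67

theorem result (V : Type) [Fintype V] [DecidableEq V] (G : SimpleGraph V) [DecidableRel G.Adj]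
    (hdeg : ∀ u v : V, u ≠ v → ¬ G.Adj u v → Fintype.card V + 14 ≤ G.degree u + G.degree v) :
    ∃ c : Sym2 V → Fin 2, ∀ u v : V, u ≠ v →
      ∃ p : G.Walk u v, p.IsPath ∧ (p.edges.map c).Nodup := by
  obtain ⟨c, hc⟩ := main_aux G hdeg
  refine ⟨fun e => if c e = true then 1 else 0, ?_⟩
  intro u v huv
  by_cases hadj : G.Adj u v
  · refine ⟨SimpleGraph.Walk.cons hadj SimpleGraph.Walk.nil, ?_, ?_⟩
    · simp [huv]
    · simp
  · obtain ⟨w, huw, hvw, hne⟩ := hc u v huv hadj
    refine ⟨SimpleGraph.Walk.cons huw (SimpleGraph.Walk.cons hvw.symm SimpleGraph.Walk.nil), ?_, ?_⟩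
    · simp [huv, huw.ne, hvw.ne']
    · have h2 : s(w, v) = s(v, w) := Sym2.eq_swap
      simp only [SimpleGraph.Walk.edges_cons, SimpleGraph.Walk.edges_nil, List.map_cons,
        List.map_nil, List.nodup_cons, List.mem_singleton, List.not_mem_nil, not_false_eq_true,
        List.nodup_nil, and_true]
      rw [h2]
      revert hne
      cases c s(u, w) <;> cases c s(v, w) <;> simp

end Pool.Agent.Results.MP_85f9db_co.DegreeSumFourteen
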