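import Pool.Agent.Lib.MP_85f9db_co.H7.Main
import Pool.Agent.Lib.MP_85f9db_co.H7.Path

set_option autoImplicit false

/-! # Rainbow connection number two at the exact degree condition, many common neighbours

`G` is a finite graph on `n` vertices. If `d(u) + d(v) ≥ n` for all non-adjacent `u ≠ v` (in
particular if all degrees are at least `n / 2`) and all non-adjacent `u ≠ v` have at least `18`
common neighbours, then two colours suffice to make `G` rainbow connected. -/

namespace Pool.Agent.Results.MP_85f9db_co.EighteenCommon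

open Finset

theorem result (V : Type) [Fintype V] [DecidableEq V] (G : SimpleGraph V) [DecidableRel G.Adj]
    (hdeg : ∀ u v : V, u ≠ v → ¬ G.Adj u v → Fintype.card V ≤ G.degree u + G.degree v)
    (h18 : ∀ u v : V, u ≠ v → ¬ G.Adj u v → 18 ≤ #{w : V | G.Adj u w ∧ G.Adj v w}) :
    ∃ c : Sym2 V → Fin 2, ∀ u v : V, u ≠ v →
      ∃ p : G.Walk u v, p.IsPath ∧ (p.edges.map c).Nodup :=
  Lib.MP_85f9db_co.H7.exists_path G (Lib.MP_85f9db_co.H7.eighteen G hdeg h18)

end Pool.Agent.Results.MP_85f9db_co.EighteenCommon
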