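import Mathlib
import Pool.Agent.Lib.MP_85f9db_co.H7.Path
import Pool.Agent.Lib.MP_85f9db_co.H21.AlphaMain

set_option autoImplicit false

namespace Pool.Agent.Results.MP_85f9db_co.IndependenceTwo

/-- If `G` has no three pairwise non-adjacent vertices and every two distinct non-adjacent
vertices have at least two common neighbours, then two colours suffice for rainbow paths between
any two vertices. -/
theorem result (V : Type) [Fintype V] [DecidableEq V] (G : SimpleGraph V) [DecidableRel G.Adj]
    (halpha : ∀ x y z : V, x ≠ y → x ≠ z → y ≠ z → G.Adj x y ∨ G.Adj x z ∨ G.Adj y z)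
    (hcommon : ∀ u v : V, u ≠ v → ¬ G.Adj u v →
      2 ≤ (Finset.univ.filter (fun w => G.Adj u w ∧ G.Adj v w)).card) :
    ∃ c : Sym2 V → Fin 2, ∀ u v : V, u ≠ v →
      ∃ p : G.Walk u v, p.IsPath ∧ (p.edges.map c).Nodup :=
  Pool.Agent.Lib.MP_85f9db_co.H7.exists_path G
    (Pool.Agent.Lib.MP_85f9db_co.H21.alpha_two halpha hcommon)

end Pool.Agent.Results.MP_85f9db_co.IndependenceTwo
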